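import Mathlib
import Pool.Agent.X128.Eroder

/-!
# The generic configuration is an attractor of deterministic NEC-voting
-/

set_option autoImplicit false

namespace Pool.Agent.Results.MP_484523_pr.GenericAttractors

open Filter Topology

/-- A configuration assigns 0 (false) or 1 (true) to every site of the plane lattice. -/
abbrev Config : Type := ℤ × ℤ → Bool

/-- The majority of three bits. -/
def maj (a b c : Bool) : Bool := (a && b) || (a && c) || (b && c)

/-- One step of NEC-voting: the majority at the site, its east and its north neighbour. -/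
def F (y : Config) : Config := fun s => maj (y s) (y (s + (1, 0))) (y (s + (0, 1)))

/-- The trajectory: `TR y s k` is the state of `s` at time `k - 1`, so that index `0` is the initial
configuration. -/
def TR (y : Config) (s : ℤ × ℤ) (k : ℕ) : Bool := F^[k] y s

/-- Two configurations are finite perturbations of each other: they lie in the same bunch. -/
def FinitePert (y y' : Config) : Prop := {s : ℤ × ℤ | y s ≠ y' s}.Finite

/-- The attractor property: the trajectory of every finite perturbation is a finite
perturbation of the trajectory. -/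
def IsAttractor (y : Config) : Prop :=
  ∀ y' : Config, FinitePert y y' → {p : (ℤ × ℤ) × ℕ | TR y p.1 p.2 ≠ TR y' p.1 p.2}.Finite

theorem maj_ne {a b c d : Bool} (h : maj a b c ≠ d) :
    (a ≠ d ∧ b ≠ d) ∨ (a ≠ d ∧ c ≠ d) ∨ (b ≠ d ∧ c ≠ d) := by
  revert h; revert a b c d; decide

theorem local_F : X128.Eroder.Local F := by
  intro s s' v h
  have h0 : s v = s' v := h v (by simp [X128.Eroder.nrm])
  have h1 : s (v + (1, 0)) = s' (v + (1, 0)) := h _ (by simp [X128.Eroder.nrm])
  have h2 : s (v + (0, 1)) = s' (v + (0, 1)) := h _ (by simp [X128.Eroder.nrm])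
  unfold F
  rw [h0, h1, h2]

theorem fix_F : X128.Eroder.FixConst F := by
  intro b
  funext s
  cases b <;> rfl

theorem erode_aux (m M : ℕ) (c : Bool) (y : Config)
    (hy : ∀ v : ℤ × ℤ, m < X128.Eroder.nrm v → X128.Eroder.nrm v ≤ M → y v = c) :
    ∀ t : ℕ, ∀ v : ℤ × ℤ, X128.Eroder.nrm v + t ≤ M → F^[t] y v ≠ c →
      -(m : ℤ) ≤ v.1 ∧ -(m : ℤ) ≤ v.2 ∧ v.1 + v.2 + t ≤ 2 * m := by
  intro t
  induction t with
  | zero =>
    intro v hv hne
    have h1 : X128.Eroder.nrm v ≤ m := by
      by_contra hcon
      exact hne (hy v (by omega) (by omega))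
    rw [X128.Eroder.nrm_le_of] at h1
    omega
  | succ t ih =>
    intro v hv hne
    rw [Function.iterate_succ_apply'] at hne
    have hmaj := maj_ne hne
    have n1 : X128.Eroder.nrm v + t ≤ M := by omega
    have n2 : X128.Eroder.nrm (v + (1, 0)) + t ≤ M := by
      unfold X128.Eroder.nrm at *
      simp only [Prod.fst_add, Prod.snd_add] at *
      omega
    have n3 : X128.Eroder.nrm (v + (0, 1)) + t ≤ M := by
      unfold X128.Eroder.nrm at *
      simp only [Prod.fst_add, Prod.snd_add] at *
      omega
    have i1 := ih v n1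
    have i2 := ih (v + (1, 0)) n2
    have i3 := ih (v + (0, 1)) n3
    simp only [Prod.fst_add, Prod.snd_add] at i2 i3
    push_cast
    rcases hmaj with ⟨ha, hb⟩ | ⟨ha, hb⟩ | ⟨ha, hb⟩
    · have := i1 ha
      have := i2 hb
      omega
    · have := i1 ha
      have := i3 hb
      omega
    · have := i2 ha
      have := i3 hb
      omega

theorem erodes_F : X128.Eroder.Erodes F := by
  intro m M c y hy t ht v hv
  by_contra hne
  have := erode_aux m M c y hy t v hv hne
  omega

/-- **The generic configuration is an attractor of deterministic NEC-voting, outside both constant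
bunches.** (1) For all configurations `y` outside a meager subset of the compact space of all
configurations (product topology): `y` is an attractor, no iterate of `y` lies in the bunch
of one of the two constant configurations, and for each of the two values there are arbitrarily late
times at which the trajectory has this value on an arbitrarily large box, so both constant
configurations are limit points of the trajectory. (2) There are continuum many such attractors
`S x`, `x : ℕ → Bool`, such that for different `x`, `x'` no iterate of `S x` lies in the bunch of an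
iterate of `S x'`. -/
theorem result :
    (∀ᶠ y in residual Config, IsAttractor y ∧
      (∀ (k : ℕ) (b : Bool), ¬ FinitePert (fun s => TR y s k) (fun _ => b)) ∧
      ∀ (b : Bool) (R T : ℕ), ∃ k, T ≤ k ∧
        ∀ s : ℤ × ℤ, s.1.natAbs ≤ R → s.2.natAbs ≤ R → TR y s k = b) ∧
    (∃ S : (ℕ → Bool) → Config,
      (∀ x, IsAttractor (S x) ∧
        (∀ (k : ℕ) (b : Bool), ¬ FinitePert (fun s => TR (S x) s k) (fun _ => b)) ∧
        ∀ (b : Bool) (R T : ℕ), ∃ k, T ≤ k ∧
          ∀ s : ℤ × ℤ, s.1.natAbs ≤ R → s.2.natAbs ≤ R → TR (S x) s k = b) ∧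
      ∀ x x', x ≠ x' → ∀ k k' : ℕ,
        ¬ FinitePert (fun s => TR (S x) s k) (fun s => TR (S x') s k')) := by
  obtain ⟨h1, S, h2, h3⟩ := X128.Eroder.main local_F erodes_F fix_F
  refine ⟨?_, S, ?_, h3⟩
  · filter_upwards [h1] with y hy
    refine ⟨hy.1, hy.2.1, fun b R T => ?_⟩
    obtain ⟨k, hk, hk2⟩ := hy.2.2 b R T
    exact ⟨k, hk, fun s a b => hk2 s ((X128.Eroder.nrm_le_of s R).2 ⟨a, b⟩)⟩
  · intro x
    refine ⟨(h2 x).1, (h2 x).2.1, fun b R T => ?_⟩
    obtain ⟨k, hk, hk2⟩ := (h2 x).2.2 b R T
    exact ⟨k, hk, fun s a b => hk2 s ((X128.Eroder.nrm_le_of s R).2 ⟨a, b⟩)⟩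

end Pool.Agent.Results.MP_484523_pr.GenericAttractors
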